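import Pool.Agent.Helper97.Nag.Goals
import Pool.Agent.Helper94.Tate.DRP

/-!
# Project NAG, packet NAG-DRPK
-/

set_option autoImplicit false

noncomputable section

namespace Pool.Agent.Helper18.Nag.DRPK

open Module Pool.Agent.Helper97.Tate Pool.Agent.Helper97.Nag MvPolynomial
open Pool.Agent.Helper94.Tate.DRP (hc_mul hom_of_mul deg_of_mul)

variable {K : Type} [Field K]

theorem mem_FmK {d k j : ℕ} {z : MvPolynomial (Fin 3) K} :
    z ∈ Fm K ((d : ℤ) - k * j) ↔ z = 0 ∨ (k * j ≤ d ∧ z.IsHomogeneous (d - k * j)) := by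
  have hc : ((k * j : ℕ) : ℤ) = (k : ℤ) * j := by push_cast; ring
  rcases Nat.lt_or_ge d (k * j) with h | h
  · rw [Fm, if_neg (by omega), Submodule.mem_bot]
    constructor
    · exact Or.inl
    · rintro (h1 | h1)
      · exact h1
      · omega
  · have e : ((d : ℤ) - k * j).toNat = d - k * j := by omega
    rw [Fm, if_pos (by omega), mem_homogeneousSubmodule, e]
    constructor
    · exact fun h1 => Or.inr ⟨h, h1⟩
    · rintro (h1 | h1)
      · rw [h1]
        exact isHomogeneous_zero _ _ _
      · exact h1.2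

theorem mem_WK {ι : Type} {P : ι → Fin 3 → K} {m d k j : ℕ} {z : MvPolynomial (Fin 3) K} :
    z ∈ WK P m d k j ↔ z ∈ Fm K ((d : ℤ) - k * j) ∧ ∀ i, z ∈ Van (P i) (m - j) := by
  rw [WK, Submodule.mem_inf, Submodule.mem_iInf]

theorem t (hA : S_VAA) : S_DRPK := by
  intro K _ ι _ _ g P m d k hk hgk h9
  obtain ⟨i0⟩ := (inferInstance : Nonempty ι)
  have hg0 : g ≠ 0 := by
    intro h0
    apply (h9 i0).2
    rw [h0]
    exact Submodule.zero_mem _
  have hpow : ∀ (Q : Fin 3 → K) (i : ℕ), g ∈ Van Q 1 → g ^ i ∈ Van Q i := by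
    intro Q i hQ
    induction i with
    | zero =>
      rw [pow_zero]
      exact (hA K Q).2.2.2 1
    | succ i ih =>
      rw [pow_succ]
      exact (hA K Q).1 i 1 _ _ ih hQ
  refine ⟨?_, ?_, ?_, ?_⟩
  · intro j i z hz
    obtain ⟨h1, h2⟩ := mem_WK.1 hz
    refine mem_WK.2 ⟨?_, ?_⟩
    · rcases mem_FmK.1 h1 with h4 | ⟨h4, h5⟩
      · rw [h4, mul_zero]
        exact Submodule.zero_mem _
      · rw [mem_FmK]
        right
        have hd : k * (j + i) = k * j + k * i := Nat.mul_add k j i
        refine ⟨by omega, ?_⟩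
        have h6 := (hgk.pow i).mul h5
        have e : k * i + (d - k * (j + i)) = d - k * j := by omega
        rw [e] at h6
        exact h6
    · intro l
      have h4 := (hA K (P l)).1 i (m - (j + i)) _ _ (hpow (P l) i (h9 l).1) (h2 l)
      exact (hA K (P l)).2.2.1 _ _ (by omega) h4
  · intro j z hz
    obtain ⟨h1, h2⟩ := mem_WK.1 hz
    refine mem_WK.2 ⟨?_, ?_⟩
    · by_cases hz0 : z = 0
      · rw [hz0]
        exact Submodule.zero_mem _
      · rcases mem_FmK.1 h1 with h4 | ⟨h4, h5⟩
        · exact absurd (mul_eq_zero.1 h4) (by tauto)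
        · have h6 := deg_of_mul hgk (mul_ne_zero hg0 hz0) h5
          rw [mem_FmK]
          right
          have hd : k * (j + 1) = k * j + k := Nat.mul_succ k j
          refine ⟨by omega, hom_of_mul hgk hg0 ?_⟩
          have e : k + (d - k * (j + 1)) = d - k * j := by omega
          rw [e]
          exact h5
    · intro l
      rcases Nat.eq_zero_or_pos (m - j) with h4 | h4
      · have e : m - (j + 1) = 0 := by omega
        rw [e]
        exact (hA K (P l)).2.2.2 z
      · apply (hA K (P l)).2.1 1 (m - (j + 1)) g z (h9 l).1 (h9 l).2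
        have e : 1 + (m - (j + 1)) = m - j := by omega
        rw [e]
        exact h2 l
  · intro j hj
    rw [eq_bot_iff]
    intro z hz
    obtain ⟨h1, -⟩ := mem_WK.1 hz
    rcases mem_FmK.1 h1 with h4 | ⟨h4, -⟩
    · rw [h4]
      exact Submodule.zero_mem _
    · omega
  · intro j
    have h1 : WK P m d k j ≤ restrictTotalDegree (Fin 3) K d := by
      intro z hz
      rw [mem_restrictTotalDegree]
      obtain ⟨h1, -⟩ := mem_WK.1 hz
      rcases mem_FmK.1 h1 with h4 | ⟨h4, h5⟩
      · rw [h4, totalDegree_zero]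
        exact Nat.zero_le _
      · exact h5.totalDegree_le.trans (Nat.sub_le _ _)
    exact Submodule.finiteDimensional_of_le h1

end Pool.Agent.Helper18.Nag.DRPK
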